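import Mathlib

/-!
# Block G2 (MP_13b103_pr): the second moment method
-/

set_option autoImplicit false

namespace Pool.Agent.Helper40.NP

open MeasureTheory ProbabilityTheory Filter

theorem paley {Ω : Type*} [MeasurableSpace Ω] {P : Measure Ω} [IsProbabilityMeasure P]
    {Y : Ω → ℝ} (hY : Measurable Y) (hb : ∃ C, ∀ ω, |Y ω| ≤ C) {m₁ m₂ : ℝ} (h0 : 0 < m₁)
    (h1 : m₁ ≤ ∫ ω, Y ω ∂P) (h2 : ∫ ω, Y ω ^ 2 ∂P ≤ m₂) :
    m₁ ^ 2 / (4 * m₂) ≤ P.real {ω | m₁ / 2 ≤ Y ω} := by
  obtain ⟨C, hC⟩ := hb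
  have hC0 : 0 ≤ C := by
    by_contra hlt
    have hne : Nonempty Ω := by
      by_contra hE
      rw [not_nonempty_iff] at hE
      have h3 : P Set.univ = 1 := measure_univ
      rw [Set.eq_empty_of_isEmpty Set.univ, measure_empty] at h3
      exact zero_ne_one h3
    obtain ⟨ω⟩ := hne
    exact hlt ((abs_nonneg _).trans (hC ω))
  set A : Set Ω := {ω | m₁ / 2 ≤ Y ω} with hA
  have hAm : MeasurableSet A := measurableSet_le measurable_const hY
  set p : ℝ := P.real A with hp
  have hp0 : 0 ≤ p := measureReal_nonneg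
  have hiY : Integrable Y P :=
    Integrable.of_bound hY.aestronglyMeasurable C (Eventually.of_forall fun ω => by
      rw [Real.norm_eq_abs]; exact hC ω)
  have hiY2 : Integrable (fun ω => Y ω ^ 2) P :=
    Integrable.of_bound (hY.pow_const 2).aestronglyMeasurable (C ^ 2)
      (Eventually.of_forall fun ω => by
        rw [Real.norm_eq_abs, abs_pow]
        exact pow_le_pow_left₀ (abs_nonneg _) (hC ω) 2)
  have hm2 : 0 ≤ m₂ := (integral_nonneg fun ω => sq_nonneg (Y ω)).trans h2
  have hi1 : Integrable (fun ω => A.indicator (fun _ => (1 : ℝ)) ω) P :=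
    (integrable_const (1 : ℝ)).indicator hAm
  have hI1 : ∫ ω, A.indicator (fun _ => (1 : ℝ)) ω ∂P = p := by
    rw [integral_indicator hAm, setIntegral_const, smul_eq_mul, mul_one]
  -- for every `t`: `t (Y - m₁ / 2) ≤ Y ^ 2 / 2 + t ^ 2 / 2 * 1_A`
  have key : ∀ t : ℝ, 0 ≤ t → t * (m₁ / 2) ≤ m₂ / 2 + t ^ 2 / 2 * p := by
    intro t ht
    have h3 : ∫ ω, t * (Y ω - m₁ / 2) ∂P ≤
        ∫ ω, (Y ω ^ 2 / 2 + t ^ 2 / 2 * A.indicator (fun _ => (1 : ℝ)) ω) ∂P := by
      refine integral_mono ((hiY.sub (integrable_const _)).const_mul t)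
        ((hiY2.div_const 2).add (hi1.const_mul _)) ?_
      intro ω
      simp only
      by_cases hω : ω ∈ A
      · rw [Set.indicator_of_mem hω]
        nlinarith [sq_nonneg (Y ω - t), mul_nonneg ht h0.le]
      · rw [Set.indicator_of_notMem hω]
        have : Y ω < m₁ / 2 := not_le.1 hω
        nlinarith [sq_nonneg (Y ω), mul_nonneg ht (sub_nonneg.2 this.le)]
    rw [integral_const_mul, integral_sub hiY (integrable_const _), integral_const,
      integral_add (hiY2.div_const 2) (hi1.const_mul _), integral_div, integral_const_mul,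
      hI1, probReal_univ, smul_eq_mul, one_mul] at h3
    have h4 : t * (m₁ / 2) ≤ t * ((∫ ω, Y ω ∂P) - m₁ / 2) :=
      mul_le_mul_of_nonneg_left (by linarith) ht
    linarith
  have hm2' : 0 < m₂ := by
    rcases hm2.lt_or_eq with h | h
    · exact h
    · exfalso
      rw [← h] at key
      -- choose `t` small
      have h5 := key (m₁ / (2 * (p + 1))) (by positivity)
      have h6 : m₁ / (2 * (p + 1)) * (m₁ / 2) = m₁ ^ 2 / (4 * (p + 1)) := by
        field_simp
        ring
      have h7 : (m₁ / (2 * (p + 1))) ^ 2 / 2 * p = m₁ ^ 2 / (4 * (p + 1)) * (p / (2 * (p + 1))) := by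
        field_simp
        ring
      rw [h6, h7] at h5
      have h8 : 0 < m₁ ^ 2 / (4 * (p + 1)) := by positivity
      have h9 : p / (2 * (p + 1)) < 1 := by
        rw [div_lt_one (by positivity)]
        linarith
      nlinarith
  rcases hp0.lt_or_eq with h | h
  · have h5 := key (m₁ / (2 * p)) (by positivity)
    have h6 : m₁ / (2 * p) * (m₁ / 2) = m₁ ^ 2 / (4 * p) := by
      field_simp
      ring
    have h7 : (m₁ / (2 * p)) ^ 2 / 2 * p = m₁ ^ 2 / (4 * p) / 2 := by
      field_simp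
      ring
    rw [h6, h7] at h5
    have h8 : m₁ ^ 2 / (4 * p) ≤ m₂ := by linarith
    rw [div_le_iff₀ (by positivity)] at h8 ⊢
    linarith
  · rw [← h] at key
    exfalso
    have h5 := key ((m₂ + 1) / m₁ * 2) (by positivity)
    have h6 : (m₂ + 1) / m₁ * 2 * (m₁ / 2) = m₂ + 1 := by
      field_simp
    rw [h6] at h5
    linarith

end Pool.Agent.Helper40.NP
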