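import Pool.Agent.Helper51.NP.Defs
import Pool.Agent.Helper37.PG.Cut

/-!
# Block G2 (MP_13b103_pr): the number of edges of a tube
-/

set_option autoImplicit false

namespace Pool.Agent.Helper40.NP

open MeasureTheory ProbabilityTheory Filter Pool.Agent.Helper79.GR Pool.Agent.Helper79.GQ
open Pool.Agent.Helper51.NP

variable {d : ℕ}

open Classical in
/-- the edges starting in a finite set of vertices -/
noncomputable def star (S : Finset (V d)) : Finset (Edge d) :=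
  (S ×ˢ (Finset.univ : Finset (St d))).image fun p => ed p.1 p.2

theorem sub_star (S : Finset (V d)) {A : Set (Edge d)}
    (h : ∀ e ∈ A, ∀ x ∈ e.1, x ∈ S) : A ⊆ ↑(star S) := by
  classical
  intro e he
  obtain ⟨x, s, rfl⟩ := Pool.Agent.Helper37.PG.exists_ed e
  have hx : x ∈ S := h _ he x (Pool.Agent.Helper37.PG.mem_ed.2 (Or.inl rfl))
  simp only [star, Finset.coe_image, Set.mem_image, Finset.mem_coe, Finset.mem_product]
  exact ⟨(x, s), ⟨hx, Finset.mem_univ _⟩, rfl⟩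

theorem card_star (S : Finset (V d)) : ((star S).card : ℝ) ≤ S.card * (d * 2) := by
  classical
  have h1 : (star S).card ≤ (S ×ˢ (Finset.univ : Finset (St d))).card := Finset.card_image_le
  rw [Finset.card_product, Finset.card_univ, Fintype.card_prod, Fintype.card_fin,
    Fintype.card_bool] at h1
  exact_mod_cast h1

theorem abs_le_n1 (x : V d) (i : Fin d) : |(x i : ℝ)| ≤ n1 x :=
  Finset.single_le_sum (f := fun i => |(x i : ℝ)|) (fun _ _ => abs_nonneg _) (Finset.mem_univ i)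

theorem mem_Icc_of {k : ℤ} {N : ℝ} (h : |(k : ℝ)| ≤ N) : k ∈ Finset.Icc (-⌊N⌋) ⌊N⌋ := by
  have h1 := abs_le.1 h
  rw [Finset.mem_Icc]
  refine ⟨?_, Int.le_floor.2 h1.2⟩
  have h2 : -k ≤ ⌊N⌋ := Int.le_floor.2 (by push_cast; linarith)
  omega

theorem finite_tub (v : F d) (h : F d →L[ℝ] ℝ) (W N : ℝ) : (tub v h W N).Finite := by
  refine Set.Finite.subset (Finset.finite_toSet
    (star (Fintype.piFinset fun _ : Fin d => Finset.Icc (-⌊N⌋) ⌊N⌋))) (sub_star _ ?_)
  intro e he x hx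
  rw [Fintype.mem_piFinset]
  intro i
  exact mem_Icc_of ((abs_le_n1 x i).trans (he x hx).2)

/-- the vertices of the tube -/
noncomputable def vs (v : F d) (i₀ : Fin d) (W N : ℝ) : Finset (V d) :=
  (Finset.Icc (-⌊N⌋) ⌊N⌋).biUnion fun k => Fintype.piFinset fun j =>
    if j = i₀ then {k} else
      Finset.Icc ⌈k * (v j / v i₀) - 2 * W⌉ ⌊k * (v j / v i₀) + 2 * W⌋

theorem mem_vs {v : F d} {h : F d →L[ℝ] ℝ} {i₀ : Fin d} (hi : ∀ j, |v j| ≤ |v i₀|)
    (h0 : v i₀ ≠ 0) {W N : ℝ} {x : V d} (hW : tr v h (rv x) ≤ W) (hN : n1 x ≤ N) :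
    x ∈ vs v i₀ W N := by
  rw [vs, Finset.mem_biUnion]
  refine ⟨x i₀, mem_Icc_of ((abs_le_n1 x i₀).trans hN), ?_⟩
  rw [Fintype.mem_piFinset]
  intro j
  have hc : ∀ j, |(x j : ℝ) - h (rv x) * v j| ≤ W := by
    intro j
    refine le_trans ?_ hW
    have := Finset.single_le_sum (f := fun i => |(rv x - h (rv x) • v) i|)
      (fun _ _ => abs_nonneg _) (Finset.mem_univ j)
    simpa [tr, nr, rv] using this
  split_ifs with hj
  · rw [hj]
    exact Finset.mem_singleton_self _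
  · have hq : |v j / v i₀| ≤ 1 := by
      rw [abs_div]
      exact div_le_one_of_le₀ (hi j) (abs_nonneg _)
    have h1 := hc j
    have h2 := hc i₀
    have h3 : |(x j : ℝ) - x i₀ * (v j / v i₀)| ≤ 2 * W := by
      have e : (x j : ℝ) - x i₀ * (v j / v i₀) = ((x j : ℝ) - h (rv x) * v j) -
          ((x i₀ : ℝ) - h (rv x) * v i₀) * (v j / v i₀) := by
        field_simp
        ring
      rw [e]
      calc |((x j : ℝ) - h (rv x) * v j) - ((x i₀ : ℝ) - h (rv x) * v i₀) * (v j / v i₀)|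
          ≤ |(x j : ℝ) - h (rv x) * v j| + |((x i₀ : ℝ) - h (rv x) * v i₀) * (v j / v i₀)| :=
            abs_sub _ _
        _ ≤ W + W * 1 := by
            rw [abs_mul]
            refine add_le_add h1 (mul_le_mul h2 hq (abs_nonneg _) ((abs_nonneg _).trans h2))
        _ = 2 * W := by ring
    have h4 := abs_le.1 h3
    rw [Finset.mem_Icc, Int.ceil_le, Int.le_floor]
    constructor <;> linarith

theorem card_Icc_le {a b : ℝ} (h : 0 ≤ b - a + 1) :
    ((Finset.Icc ⌈a⌉ ⌊b⌋).card : ℝ) ≤ b - a + 1 := by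
  rw [Int.card_Icc]
  have h1 : (((⌊b⌋ + 1 - ⌈a⌉).toNat : ℤ) : ℝ) ≤ b - a + 1 := by
    rw [Int.toNat_eq_max]
    push_cast
    refine max_le ?_ h
    have := Int.floor_le b
    have := Int.le_ceil a
    linarith
  exact_mod_cast h1

theorem card_vs {v : F d} {i₀ : Fin d} {W N : ℝ} (hW : 1 ≤ W) (hN : 1 ≤ N) :
    ((vs v i₀ W N).card : ℝ) ≤ 3 * N * (5 * W) ^ (d - 1) := by
  have h1 : (vs v i₀ W N).card ≤ ∑ k ∈ Finset.Icc (-⌊N⌋) ⌊N⌋, (Fintype.piFinset fun j : Fin d =>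
    if j = i₀ then {k} else
      Finset.Icc ⌈(k : ℝ) * (v j / v i₀) - 2 * W⌉ ⌊k * (v j / v i₀) + 2 * W⌋).card :=
    Finset.card_biUnion_le
  have h2 : ∀ k ∈ Finset.Icc (-⌊N⌋) ⌊N⌋, ((Fintype.piFinset fun j : Fin d =>
    if j = i₀ then {k} else
      Finset.Icc ⌈(k : ℝ) * (v j / v i₀) - 2 * W⌉ ⌊k * (v j / v i₀) + 2 * W⌋).card : ℝ) ≤
      (5 * W) ^ (d - 1) := by
    intro k _
    rw [Fintype.card_piFinset]
    push_cast
    rw [← Finset.mul_prod_erase Finset.univ _ (Finset.mem_univ i₀)]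
    rw [if_pos rfl, Finset.card_singleton, Nat.cast_one, one_mul]
    have h3 : (Finset.univ.erase i₀ : Finset (Fin d)).card = d - 1 := by
      rw [Finset.card_erase_of_mem (Finset.mem_univ _), Finset.card_univ, Fintype.card_fin]
    rw [← h3]
    refine (Finset.prod_le_prod (fun _ _ => Nat.cast_nonneg _) (g := fun _ => 5 * W) ?_).trans ?_
    · intro j hj
      rw [if_neg (Finset.ne_of_mem_erase hj)]
      refine (card_Icc_le ?_).trans ?_ <;> linarith
    · rw [Finset.prod_const]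
  have h4 : ((Finset.Icc (-⌊N⌋) ⌊N⌋).card : ℝ) ≤ 3 * N := by
    have h5 : (-⌊N⌋ : ℤ) = ⌈-N⌉ := by rw [Int.ceil_neg]
    rw [h5]
    refine (card_Icc_le ?_).trans ?_ <;> linarith
  calc ((vs v i₀ W N).card : ℝ) ≤ ∑ k ∈ Finset.Icc (-⌊N⌋) ⌊N⌋, ((Fintype.piFinset fun j : Fin d =>
    if j = i₀ then {k} else
      Finset.Icc ⌈(k : ℝ) * (v j / v i₀) - 2 * W⌉ ⌊k * (v j / v i₀) + 2 * W⌋).card : ℝ) := by
        exact_mod_cast h1
    _ ≤ ∑ k ∈ Finset.Icc (-⌊N⌋) ⌊N⌋, (5 * W) ^ (d - 1) := Finset.sum_le_sum h2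
    _ = (Finset.Icc (-⌊N⌋) ⌊N⌋).card * (5 * W) ^ (d - 1) := by
        rw [Finset.sum_const, nsmul_eq_mul]
    _ ≤ 3 * N * (5 * W) ^ (d - 1) := by gcongr

theorem card_tub (hd : 1 ≤ d) (v : F d) (h : F d →L[ℝ] ℝ) (hv : h v = 1) :
    ∃ K : ℝ, 1 ≤ K ∧ ∀ W N : ℝ, 1 ≤ W → 1 ≤ N →
      ((tub v h W N).ncard : ℝ) ≤ K * N * W ^ (d - 1) := by
  obtain ⟨i₀, -, hi⟩ := Finset.exists_max_image (Finset.univ : Finset (Fin d)) (fun j => |v j|)
    ⟨⟨0, hd⟩, Finset.mem_univ _⟩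
  have h0 : v i₀ ≠ 0 := by
    intro h0
    have : v = 0 := by
      funext j
      have := hi j (Finset.mem_univ _)
      rw [h0, abs_zero] at this
      exact abs_eq_zero.1 (le_antisymm this (abs_nonneg _))
    rw [this, map_zero] at hv
    exact zero_ne_one hv
  refine ⟨6 * d * 5 ^ (d - 1), ?_, ?_⟩
  · have h1 : (1 : ℝ) ≤ d := by exact_mod_cast hd
    have h2 : (1 : ℝ) ≤ 5 ^ (d - 1) := one_le_pow₀ (by norm_num)
    nlinarith
  · intro W N hW hN
    have h1 : tub v h W N ⊆ ↑(star (vs v i₀ W N)) := by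
      refine sub_star _ ?_
      intro e he x hx
      exact mem_vs (fun j => hi j (Finset.mem_univ _)) h0 (he x hx).1 (he x hx).2
    have h2 : (tub v h W N).ncard ≤ (star (vs v i₀ W N)).card := by
      rw [← Set.ncard_coe_finset]
      exact Set.ncard_le_ncard h1 (Finset.finite_toSet _)
    calc ((tub v h W N).ncard : ℝ) ≤ (star (vs v i₀ W N)).card := by exact_mod_cast h2
      _ ≤ (vs v i₀ W N).card * (d * 2) := card_star _
      _ ≤ 3 * N * (5 * W) ^ (d - 1) * (d * 2) := by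
          gcongr
          exact card_vs hW hN
      _ = 6 * d * 5 ^ (d - 1) * N * W ^ (d - 1) := by
          rw [mul_pow]
          ring

end Pool.Agent.Helper40.NP
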